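import Mathlib
import Pool.Agent.Helper18.Peb.Side
import Pool.Agent.Helper18.Peb.St.PB7

set_option autoImplicit false

/-!
PB-8b: `caseI2`.
-/

namespace Pool.Agent.Helper32.PB

open Finset Pool.Agent.Helper18.Peb

variable {V S : Type} [DecidableEq V] [Fintype S] [DecidableEq S] {G : SimpleGraph V} {z : S → V}

lemma single_sum {ι : Type} (s : Finset ι) (x : V) (f : ι → ℕ) :
    ∑ i ∈ s, (Pi.single x (f i) : V → ℕ) = Pi.single x (∑ i ∈ s, f i) := by
  classical
  induction s using Finset.induction_on with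
  | empty => simp
  | insert a s ha ih => rw [Finset.sum_insert ha, Finset.sum_insert ha, ih, single_add_single]

/-- moving the units of one star -/
lemma star_move (sd : Side G z) (σ : S) (t : ℕ) (c : Fin 1024 → ℕ)
    (hc : ∑ i, c i ≤ if 2 ≤ t then t / 2 else 0) :
    Solvable G (Pi.single (z σ) (2 ^ 34 * t))
      ((if t = 1 then Pi.single (sd.gate (sd.line σ)) 1 else 0) +
        ∑ i, Pi.single (sd.gate i) (c i)) := by
  by_cases h2 : 2 ≤ t
  · have h1 : ¬ t = 1 := by omega
    rw [if_neg h1, zero_add]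
    rw [if_pos h2] at hc
    have h3 : Solvable G (∑ i, Pi.single (z σ) (c i * 2 ^ 35)) (∑ i, Pi.single (sd.gate i) (c i)) :=
      solvable_sum _ _ _ fun i _ => (sd.any σ i).smul (c i)
    refine h3.mono ?_ le_rfl
    rw [single_sum, ← Finset.sum_mul]
    apply single_le_single
    have : t / 2 * 2 ≤ t := Nat.div_mul_le_self t 2
    calc (∑ i, c i) * 2 ^ 35 ≤ t / 2 * 2 ^ 35 := Nat.mul_le_mul_right _ hc
      _ = 2 ^ 34 * (t / 2 * 2) := by ring
      _ ≤ 2 ^ 34 * t := Nat.mul_le_mul_left _ this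
  · rw [if_neg h2] at hc
    have hc0 : ∀ i, c i = 0 := by
      intro i
      have := (Finset.sum_eq_zero_iff_of_nonneg (fun i _ => Nat.zero_le (c i))).1
        (Nat.le_zero.1 hc) i (Finset.mem_univ i)
      exact this
    have h0 : ∑ i, (Pi.single (sd.gate i) (c i) : V → ℕ) = 0 := by
      apply Finset.sum_eq_zero
      intro i _
      rw [hc0 i]
      simp
    rw [h0, add_zero]
    by_cases h1 : t = 1
    · rw [if_pos h1]
      exact (sd.own σ).solv (by rw [h1]; norm_num)
    · rw [if_neg h1]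
      exact Solvable.refl' (fun _ => Nat.zero_le _)

theorem caseI2 (sd : Side G z) (hf : ∀ i, #{σ | sd.line σ = i} = 2 ^ 104 + 2 ^ 92) (τ : S → ℕ)
    (hT : 32 * (2 ^ 114 + 2 ^ 102) ≤ 32 * ∑ σ, τ σ + (2 ^ 104 + 2 ^ 92)) :
    Solvable G (∑ σ, Pi.single (z σ) (2 ^ 34 * τ σ)) (Pi.single sd.hub 64) := by
  classical
  -- the quantities
  set a : Fin 1024 → ℕ := fun i => ∑ σ with sd.line σ = i, if τ σ = 1 then 1 else 0 with ha
  set E : ℕ := ∑ σ, if 2 ≤ τ σ then τ σ else 0 with hE
  set cap : S → ℕ := fun σ => if 2 ≤ τ σ then τ σ / 2 else 0 with hcap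
  have hEL : E ≤ 3 * ∑ σ, cap σ := by
    rw [hE, Finset.mul_sum]
    apply Finset.sum_le_sum
    intro σ _
    simp only [hcap]
    split_ifs with h
    · omega
    · omega
  have hale : ∀ i, a i ≤ 2 ^ 104 + 2 ^ 92 := by
    intro i
    rw [← hf i, Finset.card_eq_sum_ones]
    apply Finset.sum_le_sum
    intro σ _
    split_ifs <;> omega
  have hsa : ∑ i, a i = ∑ σ, if τ σ = 1 then 1 else 0 := by
    simp only [ha]
    exact Finset.sum_fiberwise_of_maps_to (fun σ _ => Finset.mem_univ (sd.line σ)) _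
  have hst : ∑ σ, τ σ = ∑ i, a i + E := by
    rw [hsa, hE, ← Finset.sum_add_distrib]
    apply Finset.sum_congr rfl
    intro σ _
    split_ifs <;> omega
  -- deficits
  set df : Fin 1024 → ℕ := fun i => (2 ^ 104 + 2 ^ 92) - a i with hdf
  have hdfa : ∀ i, df i + a i = 2 ^ 104 + 2 ^ 92 := fun i => by
    simp only [hdf]
    have := hale i
    omega
  have hsumdf : ∑ i, df i + ∑ i, a i = 2 ^ 114 + 2 ^ 102 := by
    rw [← Finset.sum_add_distrib, Finset.sum_congr rfl (fun i _ => hdfa i)]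
    simp
  have hdef : 32 * ∑ i, df i ≤ 32 * E + (2 ^ 104 + 2 ^ 92) := by
    rw [hst] at hT
    omega
  -- good lines
  set Bad : Finset (Fin 1024) := {i | 32 * E + (2 ^ 104 + 2 ^ 92) < 512 * (32 * df i)} with hBad
  have hbad : #Bad < 512 := by
    by_contra hc
    push Not at hc
    have h1 : #Bad * (32 * E + (2 ^ 104 + 2 ^ 92) + 1) ≤ ∑ i ∈ Bad, 512 * (32 * df i) := by
      rw [← smul_eq_mul, ← Finset.sum_const]
      apply Finset.sum_le_sum
      intro i hi
      rw [hBad, Finset.mem_filter] at hi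
      exact hi.2
    have h2 : ∑ i ∈ Bad, 512 * (32 * df i) ≤ 512 * (32 * ∑ i, df i) := by
      rw [Finset.mul_sum, Finset.mul_sum]
      exact Finset.sum_le_sum_of_subset (Finset.subset_univ _)
    have h3 : 512 * (32 * E + (2 ^ 104 + 2 ^ 92) + 1) ≤
        #Bad * (32 * E + (2 ^ 104 + 2 ^ 92) + 1) := Nat.mul_le_mul_right _ hc
    omega
  have hgood : 64 ≤ #(Badᶜ) := by
    rw [Finset.card_compl, Fintype.card_fin]
    omega
  obtain ⟨I, hI, hIc⟩ := Finset.exists_subset_card_eq hgood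
  have hIdem : ∀ i ∈ I, 512 * (2 ^ 104 - a i) ≤ E := by
    intro i hi
    have h1 := hI hi
    rw [Finset.mem_compl, hBad, Finset.mem_filter, not_and] at h1
    have h2 := h1 (Finset.mem_univ i)
    have h3 := hdfa i
    omega
  set dem : Fin 1024 → ℕ := fun i => if i ∈ I then 2 ^ 104 - a i else 0 with hdem
  have hdemsum : ∑ i, dem i ≤ ∑ σ, cap σ := by
    have h1 : ∑ i, dem i = ∑ i ∈ I, (2 ^ 104 - a i) := by
      simp only [hdem]
      rw [Finset.sum_ite_mem, Finset.univ_inter]
    have h2 : 512 * ∑ i ∈ I, (2 ^ 104 - a i) ≤ 64 * E := by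
      rw [Finset.mul_sum, ← hIc, ← smul_eq_mul, ← Finset.sum_const]
      exact Finset.sum_le_sum hIdem
    rw [h1]
    omega
  obtain ⟨m, hm1, hm2⟩ := transport cap dem hdemsum
  -- move the units to the gates
  have hmove : Solvable G (∑ σ, Pi.single (z σ) (2 ^ 34 * τ σ))
      (∑ σ, ((if τ σ = 1 then Pi.single (sd.gate (sd.line σ)) 1 else 0) +
        ∑ i, Pi.single (sd.gate i) (m σ i))) :=
    solvable_sum _ _ _ fun σ _ => star_move sd σ (τ σ) (m σ) (hm1 σ)
  have hA : ∑ σ, (if τ σ = 1 then (Pi.single (sd.gate (sd.line σ)) 1 : V → ℕ) else 0) =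
      ∑ i, Pi.single (sd.gate i) (a i) := by
    rw [← Finset.sum_fiberwise_of_maps_to (s := (Finset.univ : Finset S))
      (t := (Finset.univ : Finset (Fin 1024))) (g := sd.line)
      (fun σ _ => Finset.mem_univ (sd.line σ))]
    apply Finset.sum_congr rfl
    intro i _
    rw [ha]
    simp only
    rw [← single_sum]
    apply Finset.sum_congr rfl
    intro σ hσ
    rw [Finset.mem_filter] at hσ
    split_ifs with h
    · rw [hσ.2]
    · simp
  have hB : ∑ σ, ∑ i, (Pi.single (sd.gate i) (m σ i) : V → ℕ) =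
      ∑ i, Pi.single (sd.gate i) (dem i) := by
    rw [Finset.sum_comm]
    apply Finset.sum_congr rfl
    intro i _
    rw [single_sum, hm2]
  rw [Finset.sum_add_distrib, hA, hB, ← Finset.sum_add_distrib] at hmove
  have hC : ∑ i ∈ I, (Pi.single (sd.gate i) (2 ^ 104) : V → ℕ) ≤
      ∑ i, (Pi.single (sd.gate i) (a i) + Pi.single (sd.gate i) (dem i)) := by
    refine le_trans ?_ (Finset.sum_le_sum_of_subset (Finset.subset_univ I))
    apply Finset.sum_le_sum
    intro i hi
    rw [single_add_single]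
    apply single_le_single
    simp only [hdem, if_pos hi]
    omega
  have hup : Solvable G (∑ i ∈ I, (Pi.single (sd.gate i) (2 ^ 104) : V → ℕ))
      (∑ i ∈ I, (Pi.single sd.hub 1 : V → ℕ)) :=
    solvable_sum _ _ _ fun i _ => sd.up i
  refine (hmove.mono le_rfl hC).trans (hup.mono le_rfl ?_)
  rw [single_sum, Finset.sum_const, hIc]
  simp

end Pool.Agent.Helper32.PB
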